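import Pool.Agent.H36.BK.Stubs

/-! # BK18: the norm bound by induction on the tree (helper96) -/

set_option autoImplicit false

open Finset Filter Topology
open scoped Classical

namespace Pool.Agent.H36.BK

open Pool.Agent.H36.BK.LW Pool.Agent.H13R3.WB Pool.Agent.H931R3.Bal

namespace NormAux

/-- sum over the descendants of `(j, v)`, `d` levels -/
def TT (g : ℕ → ℕ → ℝ) : ℕ → ℕ → ℕ → ℝ
  | 0, _, _ => 0
  | d + 1, j, v => g j v + TT g d (j + 1) (2 * v) + TT g d (j + 1) (2 * v + 1)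

lemma TT_eq (g : ℕ → ℕ → ℝ) : ∀ d j v : ℕ, TT g d j v =
    ∑ k ∈ range d, ∑ w ∈ Ico (v * 2 ^ k) ((v + 1) * 2 ^ k), g (j + k) w
  | 0, _, _ => by simp [TT]
  | d + 1, j, v => by
    rw [sum_range_succ', TT, TT_eq g d, TT_eq g d, add_assoc, ← sum_add_distrib]
    have h1 : ∑ w ∈ Ico (v * 2 ^ 0) ((v + 1) * 2 ^ 0), g (j + 0) w = g j v := by simp
    rw [h1, add_comm (g j v)]
    congr 1
    refine sum_congr rfl fun k _ => ?_
    have e1 : v * 2 ^ (k + 1) = 2 * v * 2 ^ k := by ring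
    have e2 : (v + 1) * 2 ^ (k + 1) = (2 * v + 1 + 1) * 2 ^ k := by ring
    rw [e1, e2, ← sum_Ico_consecutive _ (show 2 * v * 2 ^ k ≤ (2 * v + 1) * 2 ^ k by gcongr; omega)
      (show (2 * v + 1) * 2 ^ k ≤ (2 * v + 1 + 1) * 2 ^ k by gcongr; omega)]
    have e3 : j + 1 + k = j + (k + 1) := by ring
    rw [e3]

lemma TT_nodes (g : ℕ → ℕ → ℝ) (J : ℕ) : ∑ u ∈ nodes J, g u.1 u.2 = TT g J 0 0 := by
  rw [TT_eq, nodes, sum_filter, sum_product]
  refine sum_congr rfl fun k hk => ?_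
  have hk := mem_range.1 hk
  rw [← sum_filter]
  refine sum_congr ?_ fun w _ => by rw [zero_add]
  ext w
  simp only [mem_filter, mem_range, mem_Ico, zero_mul, zero_add, one_mul, Nat.zero_le, true_and]
  constructor
  · exact fun h => h.2
  · exact fun h => ⟨h.trans_le (Nat.pow_le_pow_right (by norm_num) hk.le), h⟩

lemma mass_split (p : ℕ → ℝ) {J j d : ℕ} (h : j + (d + 1) = J) (v : ℕ) :
    mass p J j v = mass p J (j + 1) (2 * v) + mass p J (j + 1) (2 * v + 1) := by
  have e1 : J - j = d + 1 := by omega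
  have e2 : J - (j + 1) = d := by omega
  rw [mass, mass, mass, e1, e2]
  have e3 : v * 2 ^ (d + 1) = 2 * v * 2 ^ d := by ring
  have e4 : (v + 1) * 2 ^ (d + 1) = (2 * v + 1 + 1) * 2 ^ d := by ring
  rw [e3, e4, sum_Ico_consecutive _ (show 2 * v * 2 ^ d ≤ (2 * v + 1) * 2 ^ d by gcongr; omega)
      (show (2 * v + 1) * 2 ^ d ≤ (2 * v + 1 + 1) * 2 ^ d by gcongr; omega)]

/-- the summand -/
noncomputable def gg (τ : ℝ) (J : ℕ) (p q : ℕ → ℝ) (j v : ℕ) : ℝ :=
  if Big τ J p j v then 0 else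
    (mass p J (j + 1) (2 * v) - mass q J (j + 1) (2 * v)) ^ 2 +
      (mass p J (j + 1) (2 * v + 1) - mass q J (j + 1) (2 * v + 1)) ^ 2

/-- the counting function -/
noncomputable def nn (τ : ℝ) (J : ℕ) (p : ℕ → ℝ) (j v : ℕ) : ℝ := if Big τ J p j v then 1 else 0

lemma mass_le {p q : ℕ → ℝ} {J j d v : ℕ} {c : ℝ} (h : j + d = J)
    (ha : ∀ s ∈ Ico (v * 2 ^ d) ((v + 1) * 2 ^ d), |p s - q s| * 2 ^ d ≤ c) :
    |mass p J j v - mass q J j v| ≤ c := by
  have e1 : J - j = d := by omega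
  rw [mass, mass, e1, ← sum_sub_distrib]
  calc |∑ s ∈ Ico (v * 2 ^ d) ((v + 1) * 2 ^ d), (p s - q s)|
      ≤ ∑ s ∈ Ico (v * 2 ^ d) ((v + 1) * 2 ^ d), |p s - q s| := abs_sum_le_sum_abs _ _
    _ ≤ ∑ _s ∈ Ico (v * 2 ^ d) ((v + 1) * 2 ^ d), c / 2 ^ d := by
        apply sum_le_sum
        intro s hs
        rw [le_div_iff₀ (by positivity)]
        exact ha s hs
    _ = c := by
        rw [sum_const, Nat.card_Ico, nsmul_eq_mul]
        have e2 : (v + 1) * 2 ^ d - v * 2 ^ d = 2 ^ d := by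
          rw [add_mul, one_mul, Nat.add_sub_cancel_left]
        rw [e2]
        push_cast
        field_simp

lemma small {τ : ℝ} {J : ℕ} {p q : ℕ → ℝ} : ∀ (d j v : ℕ) (c : ℝ), j + d = J → 0 ≤ c →
    (∀ s ∈ Ico (v * 2 ^ d) ((v + 1) * 2 ^ d), |p s - q s| * 2 ^ d ≤ c) →
    TT (gg τ J p q) d j v ≤ c ^ 2
  | 0, _, _, c, _, _, _ => by simp only [TT]; positivity
  | d + 1, j, v, c, h, hc, ha => by
    have hsub1 : ∀ s ∈ Ico (2 * v * 2 ^ d) ((2 * v + 1) * 2 ^ d), |p s - q s| * 2 ^ d ≤ c / 2 := by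
      intro s hs
      have h1 := ha s (by
        rw [mem_Ico] at hs ⊢
        rw [pow_succ]
        constructor <;> nlinarith [hs.1, hs.2, Nat.two_pow_pos d])
      rw [pow_succ] at h1
      linarith
    have hsub2 : ∀ s ∈ Ico ((2 * v + 1) * 2 ^ d) ((2 * v + 1 + 1) * 2 ^ d),
        |p s - q s| * 2 ^ d ≤ c / 2 := by
      intro s hs
      have h1 := ha s (by
        rw [mem_Ico] at hs ⊢
        rw [pow_succ]
        constructor <;> nlinarith [hs.1, hs.2, Nat.two_pow_pos d])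
      rw [pow_succ] at h1
      linarith
    have h1 := small (τ := τ) (J := J) d (j + 1) (2 * v) (c / 2) (by omega) (by positivity) hsub1
    have h2 := small (τ := τ) (J := J) d (j + 1) (2 * v + 1) (c / 2) (by omega) (by positivity) hsub2
    have h3 := abs_le.1 (mass_le (J := J) (j := j + 1) (by omega) hsub1)
    have h4 := abs_le.1 (mass_le (J := J) (j := j + 1) (by omega) hsub2)
    have h5 : gg τ J p q j v ≤ (c / 2) ^ 2 + (c / 2) ^ 2 := by
      rw [gg]
      split_ifs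
      · positivity
      · have h6 : (mass p J (j + 1) (2 * v) - mass q J (j + 1) (2 * v)) ^ 2 ≤ (c / 2) ^ 2 :=
          sq_le_sq' h3.1 h3.2
        have h7 : (mass p J (j + 1) (2 * v + 1) - mass q J (j + 1) (2 * v + 1)) ^ 2 ≤ (c / 2) ^ 2 :=
          sq_le_sq' h4.1 h4.2
        linarith
    rw [TT]
    nlinarith

lemma TT_nonneg {g : ℕ → ℕ → ℝ} (hg : ∀ j v, 0 ≤ g j v) : ∀ d j v : ℕ, 0 ≤ TT g d j v
  | 0, _, _ => le_rfl
  | d + 1, j, v => by
    rw [TT]
    have := TT_nonneg hg d (j + 1) (2 * v)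
    have := TT_nonneg hg d (j + 1) (2 * v + 1)
    have := hg j v
    linarith

lemma main {τ ξ : ℝ} {J : ℕ} {p q : ℕ → ℝ} (hξ : 0 ≤ ξ) (hξτ : ξ ≤ τ)
    (hpq : ∀ u ∈ nodes J, (Big τ J p u.1 u.2 ↔ Big τ J q u.1 u.2))
    (hb : ∀ u ∈ bigs τ J p,
      |mass p J (u.1 + 1) (2 * u.2) - mass q J (u.1 + 1) (2 * u.2)| ≤ ξ ∧
      |mass p J (u.1 + 1) (2 * u.2 + 1) - mass q J (u.1 + 1) (2 * u.2 + 1)| ≤ ξ) :
    ∀ d j v : ℕ, j + d = J → v < 2 ^ j → |mass p J j v - mass q J j v| ≤ ξ →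
      TT (gg τ J p q) d j v ≤ (2 * TT (nn τ J p) d j v + 1) * (3 * τ) ^ 2
  | 0, _, _, _, _, _ => by simp only [TT]; positivity
  | d + 1, j, v, h, hv, hm => by
    have hτ : 0 ≤ τ := hξ.trans hξτ
    have hnn : ∀ j v, 0 ≤ nn τ J p j v := fun j v => by rw [nn]; split_ifs <;> norm_num
    have hN := TT_nonneg hnn (d + 1) j v
    have hnode : (j, v) ∈ nodes J := by
      rw [nodes, mem_filter, mem_product, mem_range, mem_range]
      exact ⟨⟨by show j < J; omega, by
        show v < 2 ^ J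
        exact hv.trans_le (Nat.pow_le_pow_right (by norm_num) (by omega))⟩, hv⟩
    by_cases hB : Big τ J p j v
    · obtain ⟨h1, h2⟩ := hb (j, v) (mem_filter.2 ⟨hnode, hB⟩)
      have h3 := main hξ hξτ hpq hb d (j + 1) (2 * v) (by omega) (by rw [pow_succ]; omega) h1
      have h4 := main hξ hξτ hpq hb d (j + 1) (2 * v + 1) (by omega) (by rw [pow_succ]; omega) h2
      rw [TT, TT, gg, nn, if_pos hB, if_pos hB]
      have h5 : 0 ≤ (3 * τ) ^ 2 := by positivity
      nlinarith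
    · have hBq : ¬ Big τ J q j v := fun h => hB ((hpq (j, v) hnode).2 h)
      have e1 : J - j = d + 1 := by omega
      have hp1 : ∀ s ∈ Ico (v * 2 ^ (d + 1)) ((v + 1) * 2 ^ (d + 1)),
          ∀ t ∈ Ico (v * 2 ^ (d + 1)) ((v + 1) * 2 ^ (d + 1)), 2 ^ (d + 1) * |p s - p t| ≤ τ := by
        intro s hs t ht
        by_contra hcon
        apply hB
        rw [Big, e1]
        exact ⟨s, hs, t, ht, not_le.1 hcon⟩
      have hq1 : ∀ s ∈ Ico (v * 2 ^ (d + 1)) ((v + 1) * 2 ^ (d + 1)),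
          ∀ t ∈ Ico (v * 2 ^ (d + 1)) ((v + 1) * 2 ^ (d + 1)), 2 ^ (d + 1) * |q s - q t| ≤ τ := by
        intro s hs t ht
        by_contra hcon
        apply hBq
        rw [Big, e1]
        exact ⟨s, hs, t, ht, not_le.1 hcon⟩
      have h1 : TT (gg τ J p q) (d + 1) j v ≤ (3 * τ) ^ 2 := by
        apply small (d + 1) j v (3 * τ) h (by positivity)
        intro s hs
        have e2 : (p s - q s) * 2 ^ (d + 1) = (mass p J j v - mass q J j v) +
            ∑ t ∈ Ico (v * 2 ^ (d + 1)) ((v + 1) * 2 ^ (d + 1)), ((p s - p t) - (q s - q t)) := by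
          have e3 : ∑ t ∈ Ico (v * 2 ^ (d + 1)) ((v + 1) * 2 ^ (d + 1)), ((p s - p t) - (q s - q t)) =
              ∑ _t ∈ Ico (v * 2 ^ (d + 1)) ((v + 1) * 2 ^ (d + 1)), (p s - q s) -
              (mass p J j v - mass q J j v) := by
            rw [mass, mass, e1, ← sum_sub_distrib, ← sum_sub_distrib]
            exact sum_congr rfl fun t _ => by ring
          have e4 : (v + 1) * 2 ^ (d + 1) - v * 2 ^ (d + 1) = 2 ^ (d + 1) := by
            rw [add_mul, one_mul, Nat.add_sub_cancel_left]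
          rw [e3, sum_const, Nat.card_Ico, nsmul_eq_mul, e4]
          push_cast
          ring
        have e5 : |p s - q s| * 2 ^ (d + 1) = |(p s - q s) * 2 ^ (d + 1)| := by
          rw [abs_mul, abs_of_pos (show (0 : ℝ) < 2 ^ (d + 1) by positivity)]
        rw [e5, e2]
        have h2 : |∑ t ∈ Ico (v * 2 ^ (d + 1)) ((v + 1) * 2 ^ (d + 1)), ((p s - p t) - (q s - q t))| ≤
            2 * τ := by
          calc |∑ t ∈ Ico (v * 2 ^ (d + 1)) ((v + 1) * 2 ^ (d + 1)), ((p s - p t) - (q s - q t))|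
              ≤ ∑ t ∈ Ico (v * 2 ^ (d + 1)) ((v + 1) * 2 ^ (d + 1)), |(p s - p t) - (q s - q t)| :=
                abs_sum_le_sum_abs _ _
            _ ≤ ∑ _t ∈ Ico (v * 2 ^ (d + 1)) ((v + 1) * 2 ^ (d + 1)), 2 * τ / 2 ^ (d + 1) := by
                apply sum_le_sum
                intro t ht
                rw [le_div_iff₀ (by positivity)]
                have h3 := hp1 s hs t ht
                have h4 := hq1 s hs t ht
                have h5 : |(p s - p t) - (q s - q t)| ≤ |p s - p t| + |q s - q t| := abs_sub _ _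
                have h6 : |(p s - p t) - (q s - q t)| * 2 ^ (d + 1) ≤
                    (|p s - p t| + |q s - q t|) * 2 ^ (d + 1) := by gcongr
                linarith
            _ = 2 * τ := by
                have e4 : (v + 1) * 2 ^ (d + 1) - v * 2 ^ (d + 1) = 2 ^ (d + 1) := by
                  rw [add_mul, one_mul, Nat.add_sub_cancel_left]
                rw [sum_const, Nat.card_Ico, nsmul_eq_mul, e4]
                push_cast
                field_simp
        refine (abs_add_le _ _).trans ?_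
        linarith
      refine h1.trans ?_
      have : 0 ≤ (3 * τ) ^ 2 := by positivity
      nlinarith

end NormAux

open NormAux in
/-- BK18 -/
theorem norm : S_norm := by
  intro J τ ξ p q hξ hξτ hpq hmass hb
  have h1 := main hξ hξτ hpq hb J 0 0 (by omega) (by norm_num) (by
    rw [hmass, sub_self, abs_zero]; exact hξ)
  have e1 : TT (nn τ J p) J 0 0 = (bigs τ J p).card := by
    rw [← TT_nodes, bigs, card_filter]
    push_cast
    exact sum_congr rfl fun u _ => by rw [nn]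
  have e2 : TT (gg τ J p q) J 0 0 = ∑ u ∈ nodes J \ bigs τ J p,
      ((mass p J (u.1 + 1) (2 * u.2) - mass q J (u.1 + 1) (2 * u.2)) ^ 2 +
        (mass p J (u.1 + 1) (2 * u.2 + 1) - mass q J (u.1 + 1) (2 * u.2 + 1)) ^ 2) := by
    rw [← TT_nodes]
    have e3 : nodes J \ bigs τ J p = (nodes J).filter fun u => ¬ Big τ J p u.1 u.2 := by
      rw [bigs, filter_not]
    rw [e3, sum_filter]
    refine sum_congr rfl fun u _ => ?_
    rw [gg]
    by_cases h : Big τ J p u.1 u.2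
    · rw [if_pos h, if_neg (not_not.2 h)]
    · rw [if_neg h, if_pos h]
  rw [← e1, ← e2]
  exact h1

end Pool.Agent.H36.BK
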