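import Pool.Agent.H36.BK.Stubs

/-! # BK06: the second moment of the sum of a random monotone map (helper96) -/

set_option autoImplicit false

open Finset Filter Topology
open scoped Classical

namespace Pool.Agent.H36.BK

open Pool.Agent.H36.BK.LW Pool.Agent.H13R3.WB Pool.Agent.H931R3.Bal

namespace VarAux

lemma eN_pos (α : Type) [Fintype α] [PartialOrder α] : 0 < eN α := by
  letI : Fintype (LinearExtension α) := inferInstanceAs (Fintype α)
  have hc : Fintype.card (LinearExtension α) = Fintype.card α := rfl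
  let e := monoEquivOfFin (LinearExtension α) hc
  let σ : α ≃ Fin (Fintype.card α) := e.symm.toEquiv
  have hσ : StrictMono σ := by
    intro a b hab
    have h1 : (toLinearExtension a : LinearExtension α) < toLinearExtension b := by
      refine lt_of_le_of_ne (toLinearExtension.monotone hab.le) fun h => hab.ne h
    exact e.symm.strictMono h1
  rw [eN, Nat.card_pos_iff]
  exact ⟨⟨⟨σ, hσ⟩⟩, inferInstance⟩

/-- the square of the centred sum -/
noncomputable def g (α : Type) [Fintype α] (M : ℕ) (f : α → ℕ) : ℝ :=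
  (∑ z, (f z : ℝ) - Fintype.card α * ((M : ℝ) - 1) / 2) ^ 2

/-- the same for the image -/
noncomputable def gt (n M : ℕ) (t : Finset ℕ) : ℝ :=
  (∑ v ∈ t, (v : ℝ) - n * ((M : ℝ) - 1) / 2) ^ 2

variable {α : Type} [Fintype α]

lemma g_nonneg (M : ℕ) (f : α → ℕ) : 0 ≤ g α M f := sq_nonneg _

lemma fiber (X : Finset (α → ℕ)) (M c : ℕ) (hX : ∀ f ∈ X, ∀ z, f z < M)
    (hc : ∀ t : Finset ℕ, t ⊆ range M → t.card = Fintype.card α →
      (X.filter fun f => Function.Injective f ∧ univ.image f = t).card = c) :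
    ∑ f ∈ X.filter fun f => Function.Injective f, g α M f =
      c * ∑ t ∈ powersetCard (Fintype.card α) (range M), gt (Fintype.card α) M t := by
  rw [← sum_fiberwise_of_maps_to (s := X.filter fun f => Function.Injective f)
    (t := powersetCard (Fintype.card α) (range M)) (g := fun f => univ.image f)]
  · rw [mul_sum]
    refine sum_congr rfl fun t ht => ?_
    obtain ⟨ht1, ht2⟩ := mem_powersetCard.1 ht
    rw [← hc t ht1 ht2]
    have e1 : (X.filter fun f => Function.Injective f).filter (fun f => univ.image f = t) =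
        X.filter fun f => Function.Injective f ∧ univ.image f = t := filter_filter _ _ _
    rw [e1]
    rw [← nsmul_eq_mul, ← sum_const]
    refine sum_congr rfl fun f hf => ?_
    obtain ⟨-, hf1, hf2⟩ := mem_filter.1 hf
    rw [g, gt, ← hf2, sum_image (fun x _ y _ h => hf1 h)]
  · intro f hf
    obtain ⟨hf1, hf2⟩ := mem_filter.1 hf
    rw [mem_powersetCard]
    constructor
    · intro v hv
      obtain ⟨z, -, rfl⟩ := mem_image.1 hv
      exact mem_range.2 (hX f hf1 z)
    · rw [card_image_of_injective _ hf2, card_univ]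

lemma g_le {M : ℕ} (hM : 1 ≤ M) {f : α → ℕ} (hf : ∀ z, f z < M) :
    g α M f ≤ ((Fintype.card α : ℝ) * M) ^ 2 := by
  have hM1 : (1 : ℝ) ≤ M := by exact_mod_cast hM
  have h0 : 0 ≤ ∑ z, (f z : ℝ) := sum_nonneg fun z _ => Nat.cast_nonneg _
  have h1 : ∑ z, (f z : ℝ) ≤ Fintype.card α * (M : ℝ) := by
    calc ∑ z, (f z : ℝ) ≤ ∑ _z : α, (M : ℝ) :=
          sum_le_sum fun z _ => by exact_mod_cast (hf z).le
      _ = _ := by rw [sum_const, card_univ, nsmul_eq_mul]
  have hn : (0 : ℝ) ≤ Fintype.card α := Nat.cast_nonneg _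
  have h2 : 0 ≤ (Fintype.card α : ℝ) * ((M : ℝ) - 1) := mul_nonneg hn (by linarith)
  rw [g]
  apply sq_le_sq'
  · nlinarith
  · nlinarith

lemma g_eq (M : ℕ) (f : α → ℕ) : g α M f = (∑ z, ((f z : ℝ) - ((M : ℝ) - 1) / 2)) ^ 2 := by
  rw [g, sum_sub_distrib, sum_const, card_univ, nsmul_eq_mul]
  ring

end VarAux

open VarAux in
/-- BK06 -/
theorem var : S_iid → S_img → S_var := by
  intro hiid himg α _ _
  obtain ⟨n, hn⟩ : ∃ n, n = Fintype.card α := ⟨_, rfl⟩
  have hN : (0 : ℝ) < eN α := by exact_mod_cast eN_pos α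
  have hfac : (0 : ℝ) < n.factorial := by exact_mod_cast n.factorial_pos
  -- the limits
  have h1 : Tendsto (fun M : ℕ => (eN α : ℝ) / (12 * n.factorial) + n *
      ((((Om α M).filter fun f => ¬ Function.Injective f).card : ℝ) / (M : ℝ) ^ n)) atTop
      (𝓝 ((eN α : ℝ) / (12 * n.factorial) + n * 0)) := by
    have := tendsto_noninj (α := α)
    rw [← hn] at this
    exact (this.const_mul _).const_add _
  have h2 : Tendsto (fun M : ℕ => (eN α : ℝ) / 6 * ((M.choose n : ℝ) / (M : ℝ) ^ n)) atTop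
      (𝓝 ((eN α : ℝ) / 6 * (1 / n.factorial))) := (tendsto_choose n).const_mul _
  have h3 : (eN α : ℝ) / (12 * n.factorial) + n * 0 < (eN α : ℝ) / 6 * (1 / n.factorial) := by
    rw [mul_zero, add_zero, div_mul_div_comm, mul_one]
    apply div_lt_div_of_pos_left hN (by positivity)
    linarith
  filter_upwards [h1.eventually_lt h2 h3, eventually_ge_atTop 1] with M hM hM1
  have hM0 : (0 : ℝ) < M := by exact_mod_cast hM1
  have hMn : (0 : ℝ) < (M : ℝ) ^ n := by positivity
  obtain ⟨P, hP⟩ : ∃ P : ℝ, P = ∑ t ∈ powersetCard (Fintype.card α) (range M),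
    gt (Fintype.card α) M t := ⟨_, rfl⟩
  have hA := fiber (Om α M) M (eN α) (fun f hf => (mem_Om.1 hf).1)
    (fun t ht1 ht2 => (himg α M t ht1 ht2).1)
  have hB := fiber (Fm α M) M (Fintype.card α).factorial
    (fun f hf z => by
      rw [Fm, Fintype.mem_piFinset] at hf
      exact mem_range.1 (hf z))
    (fun t ht1 ht2 => (himg α M t ht1 ht2).2)
  rw [← hP] at hA hB
  rw [← hn] at hB
  have hB1 : (n.factorial : ℝ) * P ≤ (M : ℝ) ^ n * (n * (M : ℝ) ^ 2 / 12) := by
    rw [← hB]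
    calc ∑ f ∈ (Fm α M).filter fun f => Function.Injective f, g α M f
        ≤ ∑ f ∈ Fm α M, g α M f :=
          sum_le_sum_of_subset_of_nonneg (filter_subset _ _) fun f _ _ => g_nonneg M f
      _ = (M : ℝ) ^ n * (n * ((M : ℝ) ^ 2 - 1) / 12) := by
          simp only [g_eq]
          rw [hiid α M hM1, ← hn]
      _ ≤ _ := by
          have : (0 : ℝ) ≤ n := Nat.cast_nonneg n
          gcongr
          linarith
  have hsplit : ∑ f ∈ Om α M, g α M f = ∑ f ∈ (Om α M).filter fun f => Function.Injective f, g α M f +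
      ∑ f ∈ (Om α M).filter fun f => ¬ Function.Injective f, g α M f :=
    (sum_filter_add_sum_filter_not _ _ _).symm
  have hC : ∑ f ∈ (Om α M).filter (fun f => ¬ Function.Injective f), g α M f ≤
      (((Om α M).filter fun f => ¬ Function.Injective f).card : ℝ) * ((n : ℝ) * M) ^ 2 := by
    rw [← nsmul_eq_mul, ← sum_const]
    refine sum_le_sum fun f hf => ?_
    rw [hn]
    exact g_le hM1 (mem_Om.1 (mem_filter.1 hf).1).1
  have hOm : (eN α : ℝ) * M.choose n ≤ (Om α M).card := by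
    rw [card_Om_split (α := α) M, ← hn]
    push_cast
    have : (0 : ℝ) ≤ (((Om α M).filter fun f => ¬ Function.Injective f).card : ℝ) :=
      Nat.cast_nonneg _
    linarith
  obtain ⟨ni, hni⟩ : ∃ ni : ℝ, ni = (((Om α M).filter fun f => ¬ Function.Injective f).card : ℝ) :=
    ⟨_, rfl⟩
  rw [← hni] at hM hC
  show ∑ f ∈ Om α M, g α M f ≤ _
  rw [hsplit, hA, ← hn]
  have hA1 : (eN α : ℝ) * P ≤ (M : ℝ) ^ n * (n * (M : ℝ) ^ 2) * (eN α / (12 * n.factorial)) := by
    have h4 : P ≤ (M : ℝ) ^ n * (n * (M : ℝ) ^ 2 / 12) / n.factorial := by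
      rw [le_div_iff₀ hfac]
      linarith
    calc (eN α : ℝ) * P ≤ eN α * ((M : ℝ) ^ n * (n * (M : ℝ) ^ 2 / 12) / n.factorial) := by gcongr
      _ = _ := by field_simp
  calc (eN α : ℝ) * P + ∑ f ∈ (Om α M).filter (fun f => ¬ Function.Injective f), g α M f
      ≤ (M : ℝ) ^ n * (n * (M : ℝ) ^ 2) * (eN α / (12 * n.factorial)) + ni * ((n : ℝ) * M) ^ 2 :=
        add_le_add hA1 hC
    _ = (M : ℝ) ^ n * (n * (M : ℝ) ^ 2) * ((eN α : ℝ) / (12 * n.factorial) + n *
        (ni / (M : ℝ) ^ n)) := by field_simp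
    _ ≤ (M : ℝ) ^ n * (n * (M : ℝ) ^ 2) * ((eN α : ℝ) / 6 * ((M.choose n : ℝ) / (M : ℝ) ^ n)) := by
        gcongr
    _ = (n : ℝ) / 6 * (M : ℝ) ^ 2 * (eN α * M.choose n) := by field_simp
    _ ≤ (n : ℝ) / 6 * (M : ℝ) ^ 2 * (Om α M).card := by gcongr

end Pool.Agent.H36.BK
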