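import Pool.Agent.H36.BK.Stubs

/-! # BK14: block comparison (helper96) -/

set_option autoImplicit false

open Finset Filter Topology
open scoped Classical

namespace Pool.Agent.H36.BK

open Pool.Agent.H36.BK.LW Pool.Agent.H13R3.WB Pool.Agent.H931R3.Bal

namespace NearAux

lemma blk (f : ℕ → ℝ) (b : ℕ) : ∀ R : ℕ, ∑ s ∈ range (R * b), f s =
    ∑ i ∈ range R, ∑ s ∈ Ico (i * b) ((i + 1) * b), f s
  | 0 => by simp
  | R + 1 => by
    rw [sum_range_succ, ← blk f b R, range_eq_Ico, range_eq_Ico,
      sum_Ico_consecutive f (Nat.zero_le _) (by gcongr; omega)]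

/-- weights in `[0,1]` inside a block -/
lemma inner_le {X : Finset ℕ} {q : ℕ → ℕ → ℝ} {p p' : ℕ → ℝ} {u : ℝ} (hq : ∀ s t, 0 ≤ q s t)
    (hp : ∀ s, 0 ≤ p s) (hp' : ∀ s, 0 ≤ p' s) (χ : ℕ → ℕ → Prop) [∀ s t, Decidable (χ s t)]
    (hu : ∑ s ∈ X, ∑ t ∈ X, (q s t - p s * p' t) ≤ u) :
    |∑ s ∈ X, ∑ t ∈ X, if χ s t then q s t - p s * p' t else 0| ≤
      (∑ s ∈ X, p s) * (∑ t ∈ X, p' t) + max u 0 := by
  have e1 : (∑ s ∈ X, p s) * (∑ t ∈ X, p' t) = ∑ s ∈ X, ∑ t ∈ X, p s * p' t := by
    rw [sum_mul_sum]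
  have h0 : 0 ≤ (∑ s ∈ X, p s) * (∑ t ∈ X, p' t) :=
    mul_nonneg (sum_nonneg fun s _ => hp s) (sum_nonneg fun s _ => hp' s)
  rw [abs_le]
  constructor
  · have h1 : -(∑ s ∈ X, ∑ t ∈ X, p s * p' t) ≤
        ∑ s ∈ X, ∑ t ∈ X, if χ s t then q s t - p s * p' t else 0 := by
      rw [← sum_neg_distrib]
      refine sum_le_sum fun s _ => ?_
      rw [← sum_neg_distrib]
      refine sum_le_sum fun t _ => ?_
      have := hq s t
      have := mul_nonneg (hp s) (hp' t)
      split_ifs <;> linarith
    rw [← e1] at h1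
    have := le_max_right u 0
    linarith
  · have h1 : ∑ s ∈ X, ∑ t ∈ X, (if χ s t then q s t - p s * p' t else 0) ≤
        ∑ s ∈ X, ∑ t ∈ X, ((q s t - p s * p' t) + p s * p' t) := by
      refine sum_le_sum fun s _ => sum_le_sum fun t _ => ?_
      have := hq s t
      have := mul_nonneg (hp s) (hp' t)
      split_ifs <;> linarith
    have h2 : ∑ s ∈ X, ∑ t ∈ X, ((q s t - p s * p' t) + p s * p' t) =
        ∑ s ∈ X, ∑ t ∈ X, (q s t - p s * p' t) + (∑ s ∈ X, p s) * (∑ t ∈ X, p' t) := by
      rw [e1, ← sum_add_distrib]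
      exact sum_congr rfl fun s _ => sum_add_distrib
    have := le_max_left u 0
    linarith

end NearAux

open NearAux in
/-- BK14 -/
theorem near : S_hmax → S_near := by
  intro hmax M R b q K c lam hM hMR hR hb hK hc hq htot hrow hcol hh0 hhsum hlam hlam3
  have hH := hmax M q K c lam hM hK hc hq htot hrow hcol hh0 hhsum hlam hlam3
  obtain ⟨p, hp⟩ : ∃ p : ℕ → ℝ, p = fun s => ∑ b ∈ range M, q s b := ⟨_, rfl⟩
  obtain ⟨p', hp'⟩ : ∃ p' : ℕ → ℝ, p' = fun t => ∑ a ∈ range M, q a t := ⟨_, rfl⟩
  have hp0 : ∀ s, 0 ≤ p s := fun s => by rw [hp]; exact sum_nonneg fun t _ => hq s t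
  have hp'0 : ∀ s, 0 ≤ p' s := fun s => by rw [hp']; exact sum_nonneg fun t _ => hq t s
  have hp'1 : ∑ t ∈ range M, p' t = 1 := by rw [hp', ← htot]; exact sum_comm
  obtain ⟨d, hd⟩ : ∃ d : ℕ → ℕ → ℝ, ∀ s t, d s t = q s t - p s * p' t := ⟨_, fun _ _ => rfl⟩
  obtain ⟨Hf, hHf⟩ : ∃ Hf : ℕ → ℕ → ℝ, ∀ x y, Hf x y = ∑ a ∈ range x, ∑ b ∈ range y, d a b :=
    ⟨_, fun _ _ => rfl⟩
  have hHb : ∀ x ≤ M, ∀ y ≤ M, 0 ≤ Hf x y ∧ Hf x y ≤ lam := by
    intro x hx y hy
    rcases x with _ | x
    · rw [hHf, range_zero, sum_empty]; exact ⟨le_rfl, hlam⟩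
    rcases y with _ | y
    · rw [hHf]; simp only [range_zero, sum_empty, sum_const_zero]; exact ⟨le_rfl, hlam⟩
    have e1 : Hf (x + 1) (y + 1) = hh M q x y := by
      rw [hHf, hh]
      refine sum_congr rfl fun a _ => sum_congr rfl fun b _ => ?_
      rw [hd, hp, hp']
    rw [e1]
    exact ⟨hh0 x y (by omega) (by omega), hH x y (by omega) (by omega)⟩
  have hrow0 : ∀ s, ∑ t ∈ range M, d s t = 0 := by
    intro s
    simp only [hd]
    rw [sum_sub_distrib, ← mul_sum, hp'1, hp]
    ring
  have hMb : ∀ i < R, (i + 1) * b ≤ M := fun i hi => by rw [hMR]; gcongr; omega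
  have hib : ∀ i, i * b ≤ (i + 1) * b := fun i => by gcongr; omega
  -- `H` on a rectangle
  have hrect : ∀ i y, ∑ s ∈ Ico (i * b) ((i + 1) * b), ∑ t ∈ range y, d s t =
      Hf ((i + 1) * b) y - Hf (i * b) y := by
    intro i y
    rw [hHf, hHf, sum_Ico_eq_sub _ (hib i)]
  have habs : ∀ x ≤ M, ∀ y ≤ M, ∀ z ≤ M, |Hf x z - Hf y z| ≤ lam := by
    intro x hx y hy z hz
    have h1 := hHb x hx z hz
    have h2 := hHb y hy z hz
    rw [abs_le]
    constructor <;> linarith
  -- inside a block
  have hin : ∀ i < R, ∀ (χ : ℕ → ℕ → Prop) [∀ s t, Decidable (χ s t)], |∑ s ∈ Ico (i * b) ((i + 1) * b),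
      ∑ t ∈ Ico (i * b) ((i + 1) * b), if χ s t then d s t else 0| ≤
      K / R * (∑ t ∈ Ico (i * b) ((i + 1) * b), p' t) + 2 * lam := by
    intro i hi χ _
    have h1 : ∑ s ∈ Ico (i * b) ((i + 1) * b), ∑ t ∈ Ico (i * b) ((i + 1) * b),
        (q s t - p s * p' t) ≤ 2 * lam := by
      have h2 : ∑ s ∈ Ico (i * b) ((i + 1) * b), ∑ t ∈ Ico (i * b) ((i + 1) * b),
          (q s t - p s * p' t) = (Hf ((i + 1) * b) ((i + 1) * b) - Hf (i * b) ((i + 1) * b)) -
            (Hf ((i + 1) * b) (i * b) - Hf (i * b) (i * b)) := by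
        rw [← hrect, ← hrect, ← sum_sub_distrib]
        refine sum_congr rfl fun s _ => ?_
        simp only [← hd]
        rw [sum_Ico_eq_sub _ (hib i)]
      rw [h2]
      have h3 := abs_le.1 (habs _ (hMb i hi) _ ((hib i).trans (hMb i hi)) _ (hMb i hi))
      have h4 := abs_le.1 (habs _ (hMb i hi) _ ((hib i).trans (hMb i hi)) _
        ((hib i).trans (hMb i hi)))
      linarith [h3.2, h4.1]
    have h5 := inner_le (X := Ico (i * b) ((i + 1) * b)) hq hp0 hp'0 χ h1
    simp only [← hd] at h5
    rw [max_eq_left (by positivity)] at h5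
    refine h5.trans ?_
    have h6 : ∑ s ∈ Ico (i * b) ((i + 1) * b), p s ≤ K / R := by
      calc ∑ s ∈ Ico (i * b) ((i + 1) * b), p s ≤ ∑ _s ∈ Ico (i * b) ((i + 1) * b), K / M := by
            apply sum_le_sum
            intro s hs
            rw [hp]
            exact hrow s ((mem_Ico.1 hs).2.trans_le (hMb i hi))
        _ = K / R := by
            rw [sum_const, Nat.card_Ico, nsmul_eq_mul]
            have e1 : (i + 1) * b - i * b = b := by rw [add_mul, one_mul]; omega
            have hb' : (b : ℝ) ≠ 0 := by positivity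
            have hR' : (R : ℝ) ≠ 0 := by positivity
            rw [e1, hMR]
            push_cast
            field_simp
    have h7 : 0 ≤ ∑ t ∈ Ico (i * b) ((i + 1) * b), p' t := sum_nonneg fun t _ => hp'0 t
    gcongr
  -- the two sums
  have hA1 : |∑ s ∈ range M, ∑ t ∈ range M, if s < t then d s t else 0| ≤ K / R + 3 * R * lam := by
    have e1 : ∑ s ∈ range M, ∑ t ∈ range M, (if s < t then d s t else 0) =
        ∑ i ∈ range R, ∑ s ∈ Ico (i * b) ((i + 1) * b), ∑ t ∈ range M,
          if s < t then d s t else 0 := by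
      conv_lhs => rw [show range M = range (R * b) by rw [hMR]]
      rw [blk]
      rw [hMR]
    rw [e1]
    calc |∑ i ∈ range R, ∑ s ∈ Ico (i * b) ((i + 1) * b), ∑ t ∈ range M, if s < t then d s t else 0|
        ≤ ∑ i ∈ range R, |∑ s ∈ Ico (i * b) ((i + 1) * b), ∑ t ∈ range M,
          if s < t then d s t else 0| := abs_sum_le_sum_abs _ _
      _ ≤ ∑ i ∈ range R, (K / R * (∑ t ∈ Ico (i * b) ((i + 1) * b), p' t) + 3 * lam) := by
          apply sum_le_sum
          intro i hi
          have hi := mem_range.1 hi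
          have e2 : ∑ s ∈ Ico (i * b) ((i + 1) * b), ∑ t ∈ range M, (if s < t then d s t else 0) =
              -(Hf ((i + 1) * b) ((i + 1) * b) - Hf (i * b) ((i + 1) * b)) +
              ∑ s ∈ Ico (i * b) ((i + 1) * b), ∑ t ∈ Ico (i * b) ((i + 1) * b),
                (if s < t then d s t else 0) := by
            rw [← hrect, ← sum_neg_distrib, ← sum_add_distrib]
            refine sum_congr rfl fun s hs => ?_
            obtain ⟨hs1, hs2⟩ := mem_Ico.1 hs
            have e3 : ∑ t ∈ range M, (if s < t then d s t else 0) =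
                ∑ t ∈ range (i * b), (if s < t then d s t else 0) +
                ∑ t ∈ Ico (i * b) ((i + 1) * b), (if s < t then d s t else 0) +
                ∑ t ∈ Ico ((i + 1) * b) M, (if s < t then d s t else 0) := by
              rw [sum_range_add_sum_Ico _ (hib i), sum_range_add_sum_Ico _ (hMb i hi)]
            have e4 : ∑ t ∈ range (i * b), (if s < t then d s t else 0) = 0 :=
              sum_eq_zero fun t ht => if_neg (by have := mem_range.1 ht; omega)
            have e5 : ∑ t ∈ Ico ((i + 1) * b) M, (if s < t then d s t else 0) =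
                ∑ t ∈ Ico ((i + 1) * b) M, d s t :=
              sum_congr rfl fun t ht => if_pos (by have := mem_Ico.1 ht; omega)
            have e6 : ∑ t ∈ Ico ((i + 1) * b) M, d s t = -∑ t ∈ range ((i + 1) * b), d s t := by
              have h1 := hrow0 s
              rw [← sum_range_add_sum_Ico _ (hMb i hi)] at h1
              linarith
            rw [e3, e4, e5, e6]
            ring
          rw [e2]
          have h1 := hin i hi fun s t => s < t
          have h2 := habs _ (hMb i hi) _ ((hib i).trans (hMb i hi)) _ (hMb i hi)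
          refine (abs_add_le _ _).trans ?_
          rw [abs_neg]
          linarith
      _ = K / R + 3 * R * lam := by
          rw [sum_add_distrib, ← mul_sum, ← blk, ← hMR, hp'1, sum_const, card_range, nsmul_eq_mul]
          ring
  have hA2 : |∑ s ∈ range M, ∑ t ∈ range M, if t < s then d s t else 0| ≤ K / R + 3 * R * lam := by
    have e1 : ∑ s ∈ range M, ∑ t ∈ range M, (if t < s then d s t else 0) =
        ∑ i ∈ range R, ∑ s ∈ Ico (i * b) ((i + 1) * b), ∑ t ∈ range M,
          if t < s then d s t else 0 := by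
      conv_lhs => rw [show range M = range (R * b) by rw [hMR]]
      rw [blk]
      rw [hMR]
    rw [e1]
    calc |∑ i ∈ range R, ∑ s ∈ Ico (i * b) ((i + 1) * b), ∑ t ∈ range M, if t < s then d s t else 0|
        ≤ ∑ i ∈ range R, |∑ s ∈ Ico (i * b) ((i + 1) * b), ∑ t ∈ range M,
          if t < s then d s t else 0| := abs_sum_le_sum_abs _ _
      _ ≤ ∑ i ∈ range R, (K / R * (∑ t ∈ Ico (i * b) ((i + 1) * b), p' t) + 3 * lam) := by
          apply sum_le_sum
          intro i hi
          have hi := mem_range.1 hi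
          have e2 : ∑ s ∈ Ico (i * b) ((i + 1) * b), ∑ t ∈ range M, (if t < s then d s t else 0) =
              (Hf ((i + 1) * b) (i * b) - Hf (i * b) (i * b)) +
              ∑ s ∈ Ico (i * b) ((i + 1) * b), ∑ t ∈ Ico (i * b) ((i + 1) * b),
                (if t < s then d s t else 0) := by
            rw [← hrect, ← sum_add_distrib]
            refine sum_congr rfl fun s hs => ?_
            obtain ⟨hs1, hs2⟩ := mem_Ico.1 hs
            have e3 : ∑ t ∈ range M, (if t < s then d s t else 0) =
                ∑ t ∈ range (i * b), (if t < s then d s t else 0) +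
                ∑ t ∈ Ico (i * b) ((i + 1) * b), (if t < s then d s t else 0) +
                ∑ t ∈ Ico ((i + 1) * b) M, (if t < s then d s t else 0) := by
              rw [sum_range_add_sum_Ico _ (hib i), sum_range_add_sum_Ico _ (hMb i hi)]
            have e4 : ∑ t ∈ range (i * b), (if t < s then d s t else 0) =
                ∑ t ∈ range (i * b), d s t :=
              sum_congr rfl fun t ht => if_pos (by have := mem_range.1 ht; omega)
            have e5 : ∑ t ∈ Ico ((i + 1) * b) M, (if t < s then d s t else 0) = 0 :=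
              sum_eq_zero fun t ht => if_neg (by have := mem_Ico.1 ht; omega)
            rw [e3, e4, e5, add_zero]
          rw [e2]
          have h1 := hin i hi fun s t => t < s
          have h2 := habs _ (hMb i hi) _ ((hib i).trans (hMb i hi)) _ ((hib i).trans (hMb i hi))
          refine (abs_add_le _ _).trans ?_
          linarith
      _ = K / R + 3 * R * lam := by
          rw [sum_add_distrib, ← mul_sum, ← blk, ← hMR, hp'1, sum_const, card_range, nsmul_eq_mul]
          ring
  -- the comparison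
  have hom : om M p p' = (∑ s ∈ range M, ∑ t ∈ range M, if s < t then p s * p' t else 0) -
      ∑ s ∈ range M, ∑ t ∈ range M, if t < s then p s * p' t else 0 := by
    have e1 : ∑ s ∈ range M, ∑ t ∈ range M, (if t < s then p s * p' t else 0) =
        ∑ s ∈ range M, ∑ t ∈ range M, (if s < t then p' s * p t else 0) := by
      rw [sum_comm]
      refine sum_congr rfl fun s _ => sum_congr rfl fun t _ => ?_
      split_ifs <;> ring
    rw [e1, om, ← sum_sub_distrib]
    refine sum_congr rfl fun s _ => ?_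
    rw [← sum_sub_distrib]
    refine sum_congr rfl fun t _ => ?_
    split_ifs <;> ring
  have hd1 : ∀ (χ : ℕ → ℕ → Prop) [∀ s t, Decidable (χ s t)], ∑ s ∈ range M, ∑ t ∈ range M, (if χ s t then d s t else 0) =
      (∑ s ∈ range M, ∑ t ∈ range M, if χ s t then q s t else 0) -
        ∑ s ∈ range M, ∑ t ∈ range M, if χ s t then p s * p' t else 0 := by
    intro χ _
    rw [← sum_sub_distrib]
    refine sum_congr rfl fun s _ => ?_
    rw [← sum_sub_distrib]
    refine sum_congr rfl fun t _ => ?_
    rw [hd]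
    split_ifs <;> ring
  rw [← hp, ← hp', hom]
  rw [hd1 fun s t => s < t] at hA1
  rw [hd1 fun s t => t < s] at hA2
  have h1 := abs_le.1 hA1
  have h2 := abs_le.1 hA2
  have h3 : 0 ≤ (R : ℝ) * lam := by positivity
  have h4 : 2 * K / R = K / R + K / R := by ring
  rw [abs_le, h4]
  constructor <;> linarith [h1.1, h1.2, h2.1, h2.2]

end Pool.Agent.H36.BK
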